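import Pool.Agent.Helper17.SA.St3

/-!
# MP_21f9f3_al, project SA part 3, module LD: list distinguishing colourings for p-groups
-/

set_option autoImplicit false

namespace Pool.Agent.Helper84.SA.LD

open Equiv Pool.Agent.Helper17.SA

section defs

variable {ℓ C : Type}

/-- the colouring `c` of `X` is distinguishing -/
def Dist (Q : Type) [Group Q] [MulAction Q ℓ] (X : Set ℓ) (c : ℓ → C) : Prop :=
  ∀ q : Q, (∀ ω ∈ X, c (q • ω) = c ω) → ∀ ω ∈ X, q • ω = ω

/-- two colourings of `X` are equivalent -/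
def Eqv (Q : Type) [Group Q] [MulAction Q ℓ] (X : Set ℓ) (c c' : ℓ → C) : Prop :=
  ∃ q : Q, ∀ ω ∈ X, c ω = c' (q • ω)

/-- statement (A) -/
def PA (k : ℕ) (Q : Type) [Group Q] [MulAction Q ℓ] (X : Set ℓ) (L : ℓ → Finset C) : Prop :=
  (∀ ω ∈ X, k ≤ (L ω).card) → ∃ c : Fin k → ℓ → C, (∀ i, ∀ ω ∈ X, c i ω ∈ L ω) ∧
    (∀ i, Dist Q X (c i)) ∧ ∀ i j, i ≠ j → ¬ Eqv Q X (c i) (c j)

/-- statement (B) -/
def PB (k : ℕ) (Q : Type) [Group Q] [MulAction Q ℓ] (X : Set ℓ) (L : ℓ → Finset C) : Prop :=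
  ∀ o ∈ X, (∀ ω ∈ X, ω ≠ o → k ≤ (L ω).card) → (L o).Nonempty →
    ∃ c : ℓ → C, (∀ ω ∈ X, c ω ∈ L ω) ∧ Dist Q X c

end defs

/-- a proper subgroup of a finite `p`-group lies in a normal subgroup of index `p` -/
theorem exists_M {p : ℕ} [hp : Fact p.Prime] {Q : Type} [Group Q] [Finite Q]
    (hQ : IsPGroup p Q) (H : Subgroup Q) (hH : H ≠ ⊤) :
    ∃ M : Subgroup Q, M.Normal ∧ H ≤ M ∧ M.index = p := by
  obtain ⟨m, hm⟩ := IsPGroup.iff_card.1 hQ
  obtain ⟨s, hs⟩ := IsPGroup.iff_card.1 (hQ.to_subgroup H)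
  have hlt : s < m := by
    by_contra hc
    apply hH
    apply Subgroup.eq_top_of_card_eq
    have h1 : Nat.card H ≤ Nat.card Q := Nat.card_le_card_of_injective _ H.subtype_injective
    rw [hm, hs] at h1 ⊢
    have h2 : s ≤ m := (Nat.pow_le_pow_iff_right hp.out.one_lt).1 h1
    rw [le_antisymm h2 (not_lt.1 hc)]
  obtain ⟨M, hM1, hM2⟩ := Sylow.exists_subgroup_card_pow_prime_le (G := Q) p (n := s) (m := m - 1)
    (by rw [hm]; exact pow_dvd_pow _ (by omega)) H hs (by omega)
  have hidx : M.index = p := by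
    have h1 := M.card_mul_index
    rw [hM1, hm] at h1
    have h2 : p ^ m = p ^ (m - 1) * p := by
      rw [← pow_succ]
      congr 1
      omega
    rw [h2] at h1
    exact Nat.eq_of_mul_eq_mul_left (pow_pos hp.out.pos _) h1
  refine ⟨M, ?_, hM2, hidx⟩
  apply Subgroup.normal_of_index_eq_minFac_card
  rw [hidx, hm, hp.out.pow_minFac (by omega)]

/-- greedy choice of inequivalent elements -/
theorem greedy {α : Type} [DecidableEq α] (S : Finset α) (R : α → α → Prop) (p : ℕ)
    (hR : ∀ a ∈ S, ∃ N : Finset α, N.card ≤ p ∧ ∀ b ∈ S, R a b → b ∈ N) :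
    ∀ k : ℕ, (k - 1) * p < S.card → ∃ g : Fin k → α, (∀ i, g i ∈ S) ∧
      ∀ i j, i < j → ¬ R (g i) (g j) := by
  intro k
  induction k with
  | zero =>
    intro _
    exact ⟨fun i => i.elim0, fun i => i.elim0, fun i => i.elim0⟩
  | succ k ih =>
    intro hk
    obtain ⟨g, hg1, hg2⟩ := ih (lt_of_le_of_lt (Nat.mul_le_mul_right _ (by omega)) hk)
    have hN : ∀ i : Fin k, ∃ N : Finset α, N.card ≤ p ∧ ∀ b ∈ S, R (g i) b → b ∈ N :=
      fun i => hR _ (hg1 i)
    choose N hN1 hN2 using hN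
    have hcard : (Finset.univ.biUnion N).card < S.card := by
      calc (Finset.univ.biUnion N).card ≤ ∑ i : Fin k, (N i).card := Finset.card_biUnion_le
        _ ≤ ∑ _i : Fin k, p := Finset.sum_le_sum fun i _ => hN1 i
        _ = k * p := by simp
        _ < S.card := by simpa using hk
    obtain ⟨b, hb1, hb2⟩ := Finset.exists_mem_notMem_of_card_lt_card hcard
    refine ⟨Fin.snoc g b, ?_, ?_⟩
    · intro i
      refine Fin.lastCases ?_ (fun i => ?_) i
      · rw [Fin.snoc_last]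
        exact hb1
      · rw [Fin.snoc_castSucc]
        exact hg1 i
    · intro i j
      refine Fin.lastCases ?_ (fun j => ?_) j
      · refine Fin.lastCases ?_ (fun i => ?_) i
        · intro h
          exact absurd h (lt_irrefl _)
        · intro _
          rw [Fin.snoc_last, Fin.snoc_castSucc]
          intro hr
          exact hb2 (Finset.mem_biUnion.2 ⟨i, Finset.mem_univ _, hN2 i b hb1 hr⟩)
      · refine Fin.lastCases ?_ (fun i => ?_) i
        · intro h
          exact absurd (h.trans (Fin.castSucc_lt_last j)) (lt_irrefl _)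
        · intro h
          rw [Fin.snoc_castSucc, Fin.snoc_castSucc]
          exact hg2 i j (by simpa using h)

section blocks

variable {ℓ C : Type} {Q : Type} [Group Q] [MulAction Q ℓ] (M : Subgroup Q) (o : ℓ)

open Classical in
/-- the block of a point -/
noncomputable def blk (ω : ℓ) : Q ⧸ M :=
  if h : ∃ q : Q, q • o = ω then ((Classical.choose h : Q) : Q ⧸ M) else ((1 : Q) : Q ⧸ M)

theorem blk_o (hs : MulAction.stabilizer Q o ≤ M) (q : Q) : blk M o (q • o) = (q : Q ⧸ M) := by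
  have h : ∃ r : Q, r • o = q • o := ⟨q, rfl⟩
  unfold blk
  rw [dif_pos h]
  apply QuotientGroup.eq.2
  apply hs
  rw [MulAction.mem_stabilizer_iff, mul_smul, inv_smul_eq_iff]
  exact (Classical.choose_spec h).symm

variable [M.Normal]

theorem blk_smul (hs : MulAction.stabilizer Q o ≤ M) (q : Q) {ω : ℓ}
    (hω : ω ∈ MulAction.orbit Q o) : blk M o (q • ω) = (q : Q ⧸ M) * blk M o ω := by
  obtain ⟨r, rfl⟩ := hω
  show blk M o (q • r • o) = (q : Q ⧸ M) * blk M o (r • o)
  rw [← mul_smul, blk_o M o hs, blk_o M o hs]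
  rfl

/-- the blocks -/
def B (t : Q ⧸ M) : Set ℓ := {ω | ω ∈ MulAction.orbit Q o ∧ blk M o ω = t}

theorem smul_mem_B (hs : MulAction.stabilizer Q o ≤ M) (q : Q) {t : Q ⧸ M} {ω : ℓ}
    (hω : ω ∈ B M o t) : q • ω ∈ B M o ((q : Q ⧸ M) * t) := by
  refine ⟨?_, ?_⟩
  · exact (MulAction.mem_orbit_iff.1 hω.1).elim fun r hr => ⟨q * r, by
      show (q * r) • o = q • ω
      rw [mul_smul, hr]⟩
  · rw [blk_smul M o hs q hω.1, hω.2]

theorem B_nonempty (hs : MulAction.stabilizer Q o ≤ M) (t : Q ⧸ M) :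
    ∃ ω, ω ∈ B M o t := by
  obtain ⟨r, rfl⟩ := QuotientGroup.mk_surjective t
  exact ⟨r • o, ⟨r, rfl⟩, blk_o M o hs r⟩

theorem mem_M_iff (q : Q) : (q : Q ⧸ M) = 1 ↔ q ∈ M := QuotientGroup.eq_one_iff q

theorem B_orbit (hs : MulAction.stabilizer Q o ≤ M) {t : Q ⧸ M} {ω : ℓ}
    (hω : ω ∈ B M o t) : MulAction.orbit M ω = B M o t := by
  ext ω'
  constructor
  · rintro ⟨m, rfl⟩
    have h1 := smul_mem_B M o hs (m : Q) hω
    rw [(mem_M_iff M (m : Q)).2 m.2, one_mul] at h1
    exact h1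
  · intro hω'
    obtain ⟨⟨r, hr⟩, h1⟩ := hω
    obtain ⟨⟨r', hr'⟩, h2⟩ := hω'
    have hr : r • o = ω := hr
    have hr' : r' • o = ω' := hr'
    rw [← hr, blk_o M o hs] at h1
    rw [← hr', blk_o M o hs] at h2
    refine ⟨⟨r' * r⁻¹, ?_⟩, ?_⟩
    · rw [← mem_M_iff, QuotientGroup.mk_mul, QuotientGroup.mk_inv, h1, h2, mul_inv_cancel]
    · show (r' * r⁻¹) • ω = ω'
      rw [← hr, ← hr', ← mul_smul, inv_mul_cancel_right]

theorem B_lt [Finite ℓ] (hs : MulAction.stabilizer Q o ≤ M) {p : ℕ} (hp : p.Prime)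
    (hi : M.index = p) (t : Q ⧸ M) :
    (B M o t).ncard < (MulAction.orbit Q o).ncard := by
  apply Set.ncard_lt_ncard _ (Set.toFinite _)
  have hfin : Finite (Q ⧸ M) := by
    apply Nat.finite_of_card_ne_zero
    show M.index ≠ 0
    rw [hi]
    exact hp.ne_zero
  have hnt : Nontrivial (Q ⧸ M) := by
    apply Finite.one_lt_card_iff_nontrivial.1
    show 1 < M.index
    rw [hi]
    exact hp.one_lt
  obtain ⟨t', ht'⟩ := exists_ne t
  obtain ⟨ω', hω'⟩ := B_nonempty M o hs t'
  refine ⟨fun ω hω => hω.1, fun hsub => ht' ?_⟩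
  exact hω'.2.symm.trans (hsub hω'.1).2

/-- (*) -/
theorem star (hs : MulAction.stabilizer Q o ≤ M) {p : ℕ} [hp : Fact p.Prime]
    (hi : M.index = p) (c : ℓ → C) (hd : ∀ t, Dist M (B M o t) c)
    (hne : ¬ ∀ t t' : Q ⧸ M, ∃ q : Q, (q : Q ⧸ M) * t = t' ∧ ∀ ω ∈ B M o t, c ω = c (q • ω)) :
    Dist Q (MulAction.orbit Q o) c := by
  intro q hq ω hω
  by_cases hqM : q ∈ M
  · refine hd (blk M o ω) ⟨q, hqM⟩ (fun ω' hω' => ?_) ω ⟨hω, rfl⟩
    exact hq ω' hω'.1
  · exfalso
    apply hne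
    intro t t'
    have h1 : (q : Q ⧸ M) ≠ 1 := fun h => hqM ((mem_M_iff M q).1 h)
    have h2 : t' * t⁻¹ ∈ Submonoid.powers (q : Q ⧸ M) :=
      mem_powers_of_prime_card (p := p) hi h1
    obtain ⟨n, hn⟩ := h2
    have hn : (q : Q ⧸ M) ^ n = t' * t⁻¹ := hn
    refine ⟨q ^ n, ?_, ?_⟩
    · rw [QuotientGroup.mk_pow, hn, inv_mul_cancel_right]
    · intro ω' hω'
      have h3 : ∀ m : ℕ, c (q ^ m • ω') = c ω' := by
        intro m
        induction m with
        | zero => rw [pow_zero, one_smul]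
        | succ m ih =>
          rw [pow_succ', mul_smul, hq _ ?_, ih]
          exact (smul_mem_B M o hs (q ^ m) hω').1
      exact (h3 n).symm

theorem glue_dist (D : Q ⧸ M → ℓ → C) (hs : MulAction.stabilizer Q o ≤ M)
    (hD : ∀ t, Dist M (B M o t) (D t)) :
    ∀ t, Dist M (B M o t) (fun ω => D (blk M o ω) ω) := by
  intro t m hm ω hω
  apply hD t m _ ω hω
  intro ω' hω'
  have h1 := hm ω' hω'
  have h2 : (m : Q) • ω' ∈ B M o t := by
    have := smul_mem_B M o hs (m : Q) hω'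
    rwa [(mem_M_iff M (m : Q)).2 m.2, one_mul] at this
  have h3 : m • ω' = (m : Q) • ω' := rfl
  simp only [h3, h2.2, hω'.2] at h1
  rw [h3]
  exact h1

/-- step (B) -/
theorem stepB (hs : MulAction.stabilizer Q o ≤ M) {p : ℕ} [hp : Fact p.Prime]
    (hi : M.index = p) (k : ℕ) (hk : 2 ≤ k) (L : ℓ → Finset C)
    (ih : ∀ t, PA k M (B M o t) L ∧ PB k M (B M o t) L) :
    PB k Q (MulAction.orbit Q o) L := by
  intro o' ho' hL hLo
  have hnt : Nontrivial (Q ⧸ M) := by
    have hfin : Finite (Q ⧸ M) := by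
      apply Nat.finite_of_card_ne_zero
      show M.index ≠ 0
      rw [hi]
      exact hp.out.ne_zero
    apply Finite.one_lt_card_iff_nontrivial.1
    show 1 < M.index
    rw [hi]
    exact hp.out.one_lt
  obtain ⟨t1, ht1⟩ : ∃ t1, t1 = blk M o o' := ⟨_, rfl⟩
  obtain ⟨t2, ht2⟩ := exists_ne t1
  have ho1 : o' ∈ B M o t1 := ⟨ho', ht1.symm⟩
  obtain ⟨c1, hc1, hc1'⟩ := (ih t1).2 o' ho1 (fun ω hω hne => hL ω hω.1 hne) hLo
  have hother : ∀ t, t ≠ t1 → ∀ ω ∈ B M o t, k ≤ (L ω).card := by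
    intro t ht ω hω
    apply hL ω hω.1
    rintro rfl
    apply ht
    rw [← hω.2, ht1]
  obtain ⟨c2, hc2, hc2', hc2''⟩ : ∃ c2 : ℓ → C, (∀ ω ∈ B M o t2, c2 ω ∈ L ω) ∧
      Dist M (B M o t2) c2 ∧
      ¬ ∃ q : Q, (q : Q ⧸ M) * t1 = t2 ∧ ∀ ω ∈ B M o t1, c1 ω = c2 (q • ω) := by
    obtain ⟨d, hd1, hd2, hd3⟩ := (ih t2).1 (hother t2 ht2)
    by_contra hcon
    push Not at hcon
    obtain ⟨q0, hq0, hq0'⟩ := hcon (d ⟨0, by omega⟩) (hd1 _) (hd2 _)
    obtain ⟨q1, hq1, hq1'⟩ := hcon (d ⟨1, by omega⟩) (hd1 _) (hd2 _)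
    have h1 : (q0 : Q ⧸ M) = q1 := mul_right_cancel (hq0.trans hq1.symm)
    have hm : q1 * q0⁻¹ ∈ M := by
      rw [← mem_M_iff, QuotientGroup.mk_mul, QuotientGroup.mk_inv, h1, mul_inv_cancel]
    apply hd3 ⟨0, by omega⟩ ⟨1, by omega⟩ (by simp)
    refine ⟨⟨q1 * q0⁻¹, hm⟩, ?_⟩
    intro ω hω
    have h2 : q0⁻¹ • ω ∈ B M o t1 := by
      have := smul_mem_B M o hs q0⁻¹ hω
      rwa [← hq0, QuotientGroup.mk_inv, inv_mul_cancel_left] at this
    have h3 := hq0' _ h2
    have h4 := hq1' _ h2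
    rw [smul_inv_smul] at h3
    rw [← h3, h4]
    show _ = d _ ((q1 * q0⁻¹) • ω)
    rw [mul_smul]
  have hex : ∀ t, ∃ D : ℓ → C, (∀ ω ∈ B M o t, D ω ∈ L ω) ∧ Dist M (B M o t) D ∧
      (t = t1 → D = c1) ∧ (t = t2 → D = c2) := by
    intro t
    by_cases h1 : t = t1
    · subst h1
      exact ⟨c1, hc1, hc1', fun _ => rfl, fun h => absurd h ht2.symm⟩
    · by_cases h2 : t = t2
      · subst h2
        exact ⟨c2, hc2, hc2', fun h => absurd h h1, fun _ => rfl⟩
      · obtain ⟨d, hd1, hd2, _⟩ := (ih t).1 (hother t h1)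
        exact ⟨d ⟨0, by omega⟩, hd1 _, hd2 _, fun h => absurd h h1, fun h => absurd h h2⟩
  choose D hD1 hD2 hD3 hD4 using hex
  refine ⟨fun ω => D (blk M o ω) ω, ?_, ?_⟩
  · intro ω hω
    exact hD1 _ ω ⟨hω, rfl⟩
  · apply star M o hs hi _ (glue_dist M o D hs hD2)
    intro hall
    apply hc2''
    obtain ⟨q, hq, hq'⟩ := hall t1 t2
    refine ⟨q, hq, ?_⟩
    intro ω hω
    have h1 := hq' ω hω
    have h2 := (smul_mem_B M o hs q hω).2
    simp only [hω.2, h2, hq, hD3 t1 rfl, hD4 t2 rfl] at h1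
    exact h1

/-- step (A) -/
theorem stepA (hs : MulAction.stabilizer Q o ≤ M) {p : ℕ} [hp : Fact p.Prime]
    (hi : M.index = p) (k : ℕ) (hk : (k - 1) * p < k ^ p - k) (L : ℓ → Finset C)
    (ih : ∀ t, PA k M (B M o t) L) :
    PA k Q (MulAction.orbit Q o) L := by
  classical
  intro hL
  have hfin : Finite (Q ⧸ M) := by
    apply Nat.finite_of_card_ne_zero
    show M.index ≠ 0
    rw [hi]
    exact hp.out.ne_zero
  have hft : Fintype (Q ⧸ M) := Fintype.ofFinite _
  have hcardQ : Fintype.card (Q ⧸ M) = p := by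
    rw [← Nat.card_eq_fintype_card]
    exact hi
  choose d hd1 hd2 hd3 using fun t => ih t (fun ω hω => hL ω hω.1)
  -- inequivalence on a block
  have hin : ∀ (t : Q ⧸ M) (i j : Fin k) (m : Q), m ∈ M →
      (∀ ω ∈ B M o t, d t i ω = d t j (m • ω)) → i = j := by
    intro t i j m hm h
    by_contra hij
    exact hd3 t i j hij ⟨⟨m, hm⟩, h⟩
  let cf : (Q ⧸ M → Fin k) → ℓ → C := fun f ω => d (blk M o ω) (f (blk M o ω)) ω
  have hcf : ∀ f t, ∀ ω ∈ B M o t, cf f ω = d t (f t) ω := by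
    intro f t ω hω
    show d (blk M o ω) (f (blk M o ω)) ω = d t (f t) ω
    rw [hω.2]
  let bad : (Q ⧸ M → Fin k) → Prop := fun f => ∀ t t' : Q ⧸ M, ∃ q : Q, (q : Q ⧸ M) * t = t' ∧
    ∀ ω ∈ B M o t, cf f ω = cf f (q • ω)
  let S : Finset (Q ⧸ M → Fin k) := Finset.univ.filter (fun f => ¬ bad f)
  have hS : (k - 1) * p < S.card := by
    refine lt_of_lt_of_le hk ?_
    have h1 : (Finset.univ.filter (fun f => bad f)).card + S.card = k ^ p := by
      rw [Finset.card_filter_add_card_filter_not, Finset.card_univ, Fintype.card_fun,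
        Fintype.card_fin, hcardQ]
    have h2 : (Finset.univ.filter (fun f => bad f)).card ≤ k := by
      calc (Finset.univ.filter (fun f => bad f)).card ≤ (Finset.univ : Finset (Fin k)).card := by
            apply Finset.card_le_card_of_injOn (fun f => f 1) (fun _ _ => Finset.mem_coe.2
              (Finset.mem_univ _))
            intro f hf f' hf' hff
            have hf := (Finset.mem_filter.1 (Finset.mem_coe.1 hf)).2
            have hf' := (Finset.mem_filter.1 (Finset.mem_coe.1 hf')).2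
            have hff : f 1 = f' 1 := hff
            funext t
            obtain ⟨q, hq, hq'⟩ := hf 1 t
            obtain ⟨r, hr, hr'⟩ := hf' 1 t
            rw [mul_one] at hq hr
            apply hin t _ _ (r * q⁻¹)
            · rw [← mem_M_iff, QuotientGroup.mk_mul, QuotientGroup.mk_inv, hq, hr,
                mul_inv_cancel]
            · intro ω hω
              have h2 : q⁻¹ • ω ∈ B M o 1 := by
                have := smul_mem_B M o hs q⁻¹ hω
                rwa [QuotientGroup.mk_inv, hq, inv_mul_cancel] at this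
              have h3 := hq' _ h2
              have h4 := hr' _ h2
              rw [smul_inv_smul, hcf f 1 _ h2, hcf f t _ hω] at h3
              have h5 : r • q⁻¹ • ω ∈ B M o t := by
                have := smul_mem_B M o hs r h2
                rwa [hr, mul_one] at this
              rw [hcf f' 1 _ h2, hcf f' t _ h5] at h4
              rw [← h3, hff, h4, mul_smul]
        _ = k := by simp
    omega
  have hN : ∀ a ∈ S, ∃ N : Finset (Q ⧸ M → Fin k), N.card ≤ p ∧
      ∀ b ∈ S, Eqv Q (MulAction.orbit Q o) (cf a) (cf b) → b ∈ N := by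
    intro a _
    refine ⟨Finset.univ.filter (fun b => Eqv Q (MulAction.orbit Q o) (cf a) (cf b)), ?_,
      fun b _ hb => Finset.mem_filter.2 ⟨Finset.mem_univ _, hb⟩⟩
    rw [← hcardQ, ← Finset.card_univ]
    let φ : (Q ⧸ M → Fin k) → Q ⧸ M := fun b =>
      if h : Eqv Q (MulAction.orbit Q o) (cf a) (cf b) then ((Classical.choose h : Q) : Q ⧸ M)
      else 1
    apply Finset.card_le_card_of_injOn φ (fun _ _ => Finset.mem_coe.2 (Finset.mem_univ _))
    intro b hb b' hb' hbb
    have hb := (Finset.mem_filter.1 (Finset.mem_coe.1 hb)).2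
    have hb' := (Finset.mem_filter.1 (Finset.mem_coe.1 hb')).2
    simp only [φ, dif_pos hb, dif_pos hb'] at hbb
    have hq := Classical.choose_spec hb
    have hr := Classical.choose_spec hb'
    generalize Classical.choose hb = q at hq hbb
    generalize Classical.choose hb' = r at hr hbb
    funext s
    apply hin s _ _ (r * q⁻¹)
    · rw [← mem_M_iff, QuotientGroup.mk_mul, QuotientGroup.mk_inv, hbb, mul_inv_cancel]
    · intro ω hω
      have h2 := smul_mem_B M o hs q⁻¹ hω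
      have h3 := hq _ h2.1
      have h4 := hr _ h2.1
      rw [smul_inv_smul, hcf b s _ hω] at h3
      have h5 : r • q⁻¹ • ω ∈ B M o s := by
        have := smul_mem_B M o hs r h2
        rwa [← hbb, QuotientGroup.mk_inv, mul_inv_cancel_left] at this
      rw [hcf b' s _ h5] at h4
      rw [← h3, h4, mul_smul]
  obtain ⟨g, hg1, hg2⟩ := greedy S
    (fun a b => Eqv Q (MulAction.orbit Q o) (cf a) (cf b)) p hN k hS
  refine ⟨fun i => cf (g i), ?_, ?_, ?_⟩
  · intro i ω hω
    exact hd1 (blk M o ω) _ ω ⟨hω, rfl⟩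
  · intro i
    apply star M o hs hi _ (glue_dist M o (fun t => d t (g i t)) hs (fun t => hd2 t _))
    exact (Finset.mem_filter.1 (hg1 i)).2
  · intro i j hij hE
    rcases lt_or_gt_of_ne hij with h | h
    · exact hg2 i j h hE
    · apply hg2 j i h
      obtain ⟨q, hq⟩ := hE
      refine ⟨q⁻¹, fun ω hω => ?_⟩
      have h1 : q⁻¹ • ω ∈ MulAction.orbit Q o := (smul_mem_B M o hs q⁻¹ ⟨hω, rfl⟩).1
      have h2 := hq _ h1
      rw [smul_inv_smul] at h2
      exact h2.symm

end blocks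

/-- the induction -/
theorem main_ind {ℓ C : Type} [Finite ℓ] (p : ℕ) [hp : Fact p.Prime] (k : ℕ) (hk : 2 ≤ k)
    (hk' : (k - 1) * p < k ^ p - k) (L : ℓ → Finset C) :
    ∀ (n : ℕ) (Q : Type) [Group Q] [Finite Q] [MulAction Q ℓ] (o : ℓ), IsPGroup p Q →
      (MulAction.orbit Q o).ncard = n →
      PA k Q (MulAction.orbit Q o) L ∧ PB k Q (MulAction.orbit Q o) L := by
  intro n
  induction n using Nat.strong_induction_on with
  | _ n ih =>
    intro Q _ _ _ o hQ hn
    by_cases hst : MulAction.stabilizer Q o = ⊤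
    · have hfix : ∀ q : Q, q • o = o := by
        intro q
        have : q ∈ MulAction.stabilizer Q o := by
          rw [hst]
          trivial
        exact this
      have horb : ∀ ω ∈ MulAction.orbit Q o, ω = o := by
        rintro ω ⟨q, rfl⟩
        exact hfix q
      have hoo : o ∈ MulAction.orbit Q o := MulAction.mem_orbit_self o
      have hdist : ∀ c : ℓ → C, Dist Q (MulAction.orbit Q o) c := by
        intro c q _ ω hω
        rw [horb ω hω]
        exact hfix q
      constructor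
      · intro hL
        have h1 := hL o hoo
        obtain ⟨T, hT1, hT2⟩ := Finset.exists_subset_card_eq h1
        refine ⟨fun i _ => ((T.equivFinOfCardEq hT2).symm i : C), ?_, fun i => hdist _, ?_⟩
        · intro i ω hω
          rw [horb ω hω]
          exact hT1 ((T.equivFinOfCardEq hT2).symm i).2
        · intro i j hij hE
          obtain ⟨q, hq⟩ := hE
          apply hij
          have := hq o hoo
          exact (T.equivFinOfCardEq hT2).symm.injective (Subtype.ext this)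
      · intro o' ho' _ hLo
        obtain ⟨a, ha⟩ := hLo
        refine ⟨fun _ => a, ?_, hdist _⟩
        intro ω hω
        rw [horb ω hω, ← horb o' ho']
        exact ha
    · obtain ⟨M, hM1, hM2, hM3⟩ := exists_M hQ _ hst
      have hih : ∀ t, PA k M (B M o t) L ∧ PB k M (B M o t) L := by
        intro t
        obtain ⟨ω, hω⟩ := B_nonempty M o hM2 t
        have h1 := B_orbit M o hM2 hω
        have h2 := B_lt M o hM2 hp.out hM3 t
        rw [← h1] at h2 ⊢
        exact ih _ (by rw [← hn]; exact h2) M ω (hQ.to_subgroup M) rfl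
      exact ⟨stepA M o hM2 hM3 k hk' L (fun t => (hih t).1), stepB M o hM2 hM3 k hk L hih⟩

theorem pLD : StLD := by
  intro p Q _ _ ℓ _ _ C L o hp hQ htr hL hLo
  haveI : Fact p.Prime := ⟨hp⟩
  have horb : MulAction.orbit Q o = Set.univ := MulAction.orbit_eq_univ Q o
  have hk : 2 ≤ kap p + 1 := by
    unfold kap
    split_ifs <;> norm_num
  have hk' : (kap p + 1 - 1) * p < (kap p + 1) ^ p - (kap p + 1) := by
    unfold kap
    split_ifs with h2
    · rw [h2]
      norm_num
    · have h3 : 3 ≤ p := by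
        have := hp.two_le
        omega
      have h4 : ∀ n : ℕ, 3 ≤ n → n + 2 < 2 ^ n := by
        intro n hn
        induction n, hn using Nat.le_induction with
        | base => norm_num
        | succ n hn ih =>
          rw [pow_succ]
          omega
      have h5 := h4 p h3
      norm_num
      omega
  obtain ⟨c, hc1, hc2⟩ := (main_ind p (kap p + 1) hk hk' L _ Q o hQ rfl).2 o
    (MulAction.mem_orbit_self o) (fun ω _ hne => hL ω hne) hLo
  refine ⟨c, fun ω => hc1 ω (by rw [horb]; trivial), ?_⟩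
  intro q hq ω
  exact hc2 q (fun ω' _ => hq ω') ω (by rw [horb]; trivial)

end Pool.Agent.Helper84.SA.LD
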